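import Pool.Agent.Q32.LR2.Stm

/-!
# Project LR2 (helper32), job STEP: one extension step
-/

set_option autoImplicit false

open Q32.LR2

namespace Q202.LR2

theorem step : S_STEP := by
  intro hSUB hRFG hRET hCUT hMAL hF0 hF1 hF2 hF3 hF4 hNEST hTREE hFIX hNB hEXT hREL
  intro G Q M Y _ _ _ _ _ F H _ _ e π s hπ Z S S' hClo hS'fin hSS' hFH f hf
  obtain ⟨hfhom, hfpr⟩ := hf
  obtain ⟨s1, s2, s3, s4, s5, s6, s7, s8, s9, s10⟩ := hSUB G Y F H e
  have hWW' : Z ∪ S ⊆ Z ∪ S' := Set.union_subset_union_right Z hSS'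
  have hFH' : F ⊓ H ≤ BB F e (Z ∪ S') := hFH.trans (s4 _ _ hWW').2
  obtain ⟨R, hRfin, hR⟩ := hRFG hSUB hRET G Y F H e Z S' hClo hS'fin hFH'
  -- notation
  have hAL : ∀ W : Set Y, AA F H e W ≤ LL F H e W := fun W => le_sup_right
  have hHL : ∀ W : Set Y, H ≤ LL F H e W := fun W => le_sup_left
  have hLL : LL F H e (Z ∪ S) ≤ LL F H e (Z ∪ S') := sup_le_sup_left (s4 _ _ hWW').1 H
  have hRW : ∀ r ∈ R, r ∈ LL F H e (Z ∪ S') := by
    intro r hr
    apply hAL
    rw [hR]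
    exact (le_sup_right : Subgroup.closure R ≤ _) (Subgroup.subset_closure hr)
  have hZA : BB F e Z ≤ LL F H e (Z ∪ S) := by
    rw [s9 Z hClo]
    exact (s4 _ _ Set.subset_union_left).1.trans (hAL _)
  set Γ := LL F H e (Z ∪ S') with hΓ
  set L : Subgroup Γ := (LL F H e (Z ∪ S)).subgroupOf Γ with hL
  set S0 : Set Γ := {r | (r : G) ∈ R} with hS0
  have hS0fin : S0.Finite := hRfin.preimage Subtype.val_injective.injOn
  have hmemL : ∀ g : Γ, g ∈ L ↔ (g : G) ∈ LL F H e (Z ∪ S) := fun g => Subgroup.mem_subgroupOf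
  -- generation
  have hgen : L ⊔ Subgroup.closure S0 = ⊤ := by
    rw [eq_top_iff]
    have e1 : (L ⊔ Subgroup.closure S0).map Γ.subtype = LL F H e (Z ∪ S) ⊔ Subgroup.closure R := by
      rw [Subgroup.map_sup, MonoidHom.map_closure]
      congr 1
      · rw [hL, Subgroup.subgroupOf_map_subtype]
        exact inf_eq_left.2 hLL
      · congr 1
        ext r
        constructor
        · rintro ⟨x, hx, rfl⟩
          exact hx
        · intro hr
          exact ⟨⟨r, hRW r hr⟩, hr, rfl⟩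
    have e2 : Γ ≤ LL F H e (Z ∪ S) ⊔ Subgroup.closure R := by
      intro g hg
      obtain ⟨a, ha, h, hh, rfl⟩ := (s6 _ g).1 hg
      refine Subgroup.mul_mem _ ?_ ((le_sup_left : LL F H e (Z ∪ S) ≤ _) (hHL _ hh))
      rw [hR] at ha
      exact (sup_le_sup_right hZA _) ha
    intro g _
    have e3 : (g : G) ∈ (L ⊔ Subgroup.closure S0).map Γ.subtype := by
      rw [e1]
      exact e2 g.2
    obtain ⟨x, hx, hxg⟩ := e3
    have : x = g := Subtype.ext hxg
    rwa [← this]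
  have hker : ∀ k : Γ, k ∈ (π.comp Γ.subtype).ker ↔ (k : G) ∈ F := by
    intro k
    rw [MonoidHom.mem_ker, ← hπ, MonoidHom.mem_ker]
    rfl
  obtain ⟨φ, hφ1, hφ2⟩ := hREL hNEST hTREE hFIX hNB hEXT Γ Q M (π.comp Γ.subtype) s L S0 hgen
    (by
      intro g
      obtain ⟨a, ha, h, hh, hg⟩ := (s6 _ (g : G)).1 g.2
      refine ⟨⟨a, hAL _ ha⟩, (hker _).2 (s2 _ (s3 _ ha)), ⟨h, hHL _ hh⟩, (hmemL _).2 (hHL _ hh), ?_⟩
      exact Subtype.ext hg)
    (by
      intro k hk j hj hkj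
      have hkF := (hker k).1 hk
      have e1 : (⟨(k : G), hkF⟩ : F) ^ j = 1 := by
        apply Subtype.ext
        have := congrArg (fun z : Γ => (z : G)) hkj
        exact this
      have e2 : (e ⟨(k : G), hkF⟩) ^ j = 1 := by
        rw [← map_pow, e1, map_one]
      have e3 : e ⟨(k : G), hkF⟩ = 1 := by
        have e5 : (e ⟨(k : G), hkF⟩) ^ j = 1 ^ j := by rw [e2, one_pow]
        exact pow_left_injective hj.ne' e5
      have e4 : (⟨(k : G), hkF⟩ : F) = 1 := by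
        apply e.injective
        rw [e3, map_one]
      exact Subtype.ext (congrArg (fun z : F => (z : G)) e4))
    (by
      intro c hc k hk hkL hck
      have := hMAL hSUB hF0 hF1 hF2 hF3 hF4 G Y F H e (Z ∪ S) (Z ∪ S') hWW' hFH c c.2
        (fun h => hc ((hmemL c).2 h)) k ((hker k).1 hk) ((hmemL k).1 hkL) ((hmemL _).1 hck)
      exact Subtype.ext this)
    (hCUT hSUB hF0 hF1 hF2 G Y F H e (Z ∪ S) (Z ∪ S') hWW' hFH S0 hS0fin)
    (fun g => f g)
    (by
      intro a ha b hb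
      exact hfhom a ((hmemL a).1 ha) b ((hmemL b).1 hb))
    (by
      intro E hE hEL
      have := hE
      obtain ⟨n, hn⟩ := hfpr (E.map Γ.subtype) (Set.Finite.image _ (Set.toFinite (E : Set Γ)))
        (by
          rintro _ ⟨x, hx, rfl⟩
          exact (hmemL x).1 (hEL hx))
      exact ⟨n, fun g hg => hn g ⟨g, hg, rfl⟩⟩)
  classical
  refine ⟨fun g => if h : g ∈ Γ then φ ⟨g, h⟩ else 1, ⟨?_, ?_⟩, ?_⟩
  · intro a ha b hb
    have hab : a * b ∈ Γ := Γ.mul_mem ha hb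
    show (if h : a * b ∈ Γ then φ ⟨a * b, h⟩ else 1) = (if h : a ∈ Γ then φ ⟨a, h⟩ else 1) *
      (if h : b ∈ Γ then φ ⟨b, h⟩ else 1)
    rw [dif_pos ha, dif_pos hb, dif_pos hab, ← map_mul]
    rfl
  · intro E hE hEL
    have := hE
    have hfin : ((Subtype.val : Γ → G) ⁻¹' (E : Set G)).Finite :=
      Set.Finite.preimage Subtype.val_injective.injOn (Set.toFinite (E : Set G))
    obtain ⟨n, hn⟩ := hφ2 (E.subgroupOf Γ) hfin le_top
    refine ⟨n, fun g hg => ?_⟩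
    show (if h : g ∈ Γ then φ ⟨g, h⟩ else 1) = _
    rw [dif_pos (hEL hg)]
    exact hn ⟨g, hEL hg⟩ (Subgroup.mem_subgroupOf.2 hg)
  · intro g hg
    show (if h : g ∈ Γ then φ ⟨g, h⟩ else 1) = _
    rw [dif_pos (hLL hg)]
    exact hφ1 ⟨g, hLL hg⟩ ((hmemL _).2 hg)

end Q202.LR2
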